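import Pool.Agent.Helper84.OB.Stmts

/-!
# OB, row NU: the nullity between a set and its cyclic part
-/

set_option autoImplicit false

universe u

open Set Pool.Agent.Helper84.BT Pool.Agent.Helper84.OB
open scoped Matroid

namespace Pool.Agent.Helper13.OB

theorem st_NU : ST_NU.{u} := by
  intro α _ M U F hF h1 h2
  have h3 := nullity_mono M h2
  have h4 := nullity_mono M h1
  have h5 := nullity_cyc hF
  omega

end Pool.Agent.Helper13.OB
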